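import Pool.Agent.TH829.Ten.Defs

/-!
# Prime tensor ideals: existence
-/

set_option autoImplicit false

open CategoryTheory MonoidalCategory

universe v u

namespace Pool.Agent.TH829.Ten

set_option linter.unusedSectionVars false

variable {C : Type u} [Category.{v} C] [MonoidalCategory C] [Preadditive C] [Linear ℚ C]

section preadditive

variable [MonoidalPreadditive C]

lemma tensor_smul {X Y Z W : C} (q : ℚ) (f : X ⟶ Y) (g : Z ⟶ W) :
    f ⊗ₘ (q • g) = q • (f ⊗ₘ g) := by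
  let φ : (Z ⟶ W) →+ (X ⊗ Z ⟶ Y ⊗ W) :=
    { toFun := fun g => f ⊗ₘ g
      map_zero' := MonoidalPreadditive.tensor_zero f
      map_add' := fun a b => MonoidalPreadditive.tensor_add f a b }
  exact map_rat_smul φ q g

lemma smul_tensor {X Y Z W : C} (q : ℚ) (f : X ⟶ Y) (g : Z ⟶ W) :
    (q • f) ⊗ₘ g = q • (f ⊗ₘ g) := by
  let φ : (X ⟶ Y) →+ (X ⊗ Z ⟶ Y ⊗ W) :=
    { toFun := fun f => f ⊗ₘ g
      map_zero' := MonoidalPreadditive.zero_tensor g
      map_add' := fun a b => MonoidalPreadditive.add_tensor a b g }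
  exact map_rat_smul φ q f

/-- The ideal `(I : f)`. -/
def colon (I : Family C) {X Y : C} (f : X ⟶ Y) : Family C := fun Z W =>
  { carrier := {g | f ⊗ₘ g ∈ I (X ⊗ Z) (Y ⊗ W)}
    zero_mem' := by
      show f ⊗ₘ (0 : Z ⟶ W) ∈ I (X ⊗ Z) (Y ⊗ W)
      rw [MonoidalPreadditive.tensor_zero]
      exact Submodule.zero_mem _
    add_mem' := by
      intro a b ha hb
      show f ⊗ₘ (a + b) ∈ I (X ⊗ Z) (Y ⊗ W)
      rw [MonoidalPreadditive.tensor_add]
      exact Submodule.add_mem _ ha hb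
    smul_mem' := by
      intro q a ha
      show f ⊗ₘ (q • a) ∈ I (X ⊗ Z) (Y ⊗ W)
      rw [tensor_smul]
      exact Submodule.smul_mem _ q ha }

lemma mem_colon {I : Family C} {X Y Z W : C} {f : X ⟶ Y} {g : Z ⟶ W} :
    g ∈ colon I f Z W ↔ f ⊗ₘ g ∈ I (X ⊗ Z) (Y ⊗ W) := Iff.rfl

variable [SymmetricCategory C]

lemma IsTensorIdeal.swap {I : Family C} (hI : IsTensorIdeal I) {X Y Z W : C} {f : X ⟶ Y}
    {g : Z ⟶ W} (h : f ⊗ₘ g ∈ I (X ⊗ Z) (Y ⊗ W)) : g ⊗ₘ f ∈ I (Z ⊗ X) (W ⊗ Y) := by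
  have e : g ⊗ₘ f = (β_ Z X).hom ≫ (f ⊗ₘ g) ≫ (β_ Y W).hom := by
    rw [BraidedCategory.braiding_naturality, SymmetricCategory.symmetry_assoc]
  rw [e]
  exact hI.comp_left _ (hI.comp_right _ h)

lemma IsTensorIdeal.colon {I : Family C} (hI : IsTensorIdeal I) {X Y : C} (f : X ⟶ Y) :
    IsTensorIdeal (colon I f) := by
  have h1 : ∀ {Z W V : C} (g : Z ⟶ W) {h : W ⟶ V}, h ∈ Ten.colon I f W V →
      g ≫ h ∈ Ten.colon I f Z V := by
    intro Z W V g h hh
    rw [mem_colon] at hh ⊢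
    have e : f ⊗ₘ (g ≫ h) = (X ◁ g) ≫ (f ⊗ₘ h) := by
      rw [← id_tensorHom, tensorHom_comp_tensorHom, Category.id_comp]
    rw [e]
    exact hI.comp_left _ hh
  have h2 : ∀ {Z W V : C} {g : Z ⟶ W} (h : W ⟶ V), g ∈ Ten.colon I f Z W →
      g ≫ h ∈ Ten.colon I f Z V := by
    intro Z W V g h hh
    rw [mem_colon] at hh ⊢
    have e : f ⊗ₘ (g ≫ h) = (f ⊗ₘ g) ≫ (Y ◁ h) := by
      rw [← id_tensorHom, tensorHom_comp_tensorHom, Category.comp_id]
    rw [e]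
    exact hI.comp_right _ hh
  have h3 : ∀ (V : C) {Z W : C} {g : Z ⟶ W}, g ∈ Ten.colon I f Z W →
      g ▷ V ∈ Ten.colon I f (Z ⊗ V) (W ⊗ V) := by
    intro V Z W g hg
    rw [mem_colon] at hg ⊢
    have e : f ⊗ₘ (g ▷ V) = (α_ X Z V).inv ≫ ((f ⊗ₘ g) ▷ V) ≫ (α_ Y W V).hom := by
      rw [← tensorHom_id, ← tensorHom_id, associator_naturality, Iso.inv_hom_id_assoc]
    rw [e]
    exact hI.comp_left _ (hI.comp_right _ (hI.whisker_right V hg))
  refine { comp_left := fun g _ hh => h1 g hh, comp_right := fun g hh => h2 g hh,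
           whisker_left := ?_, whisker_right := fun V _ _ _ hh => h3 V hh }
  intro V Z W g hg
  have e : V ◁ g = (β_ V Z).hom ≫ (g ▷ V) ≫ (β_ W V).hom := by
    rw [← id_tensorHom, ← tensorHom_id, BraidedCategory.braiding_naturality,
      SymmetricCategory.symmetry_assoc]
  rw [e]
  exact h1 _ (h2 _ (h3 V hg))

lemma IsTensorIdeal.le_colon {I : Family C} (hI : IsTensorIdeal I) {X Y : C} (f : X ⟶ Y) :
    I ≤ Ten.colon I f := by
  intro Z W g hg
  rw [mem_colon]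
  have e : f ⊗ₘ g = (f ▷ Z) ≫ (Y ◁ g) := by
    rw [← tensorHom_id, ← id_tensorHom, tensorHom_comp_tensorHom, Category.comp_id,
      Category.id_comp]
  rw [e]
  exact hI.comp_left _ (hI.whisker_left Y hg)

/-- An ideal containing the identity of the unit contains all morphisms. -/
lemma IsTensorIdeal.mem_of_unit {I : Family C} (hI : IsTensorIdeal I)
    (h : 𝟙 (𝟙_ C) ∈ I (𝟙_ C) (𝟙_ C)) {X Y : C} (f : X ⟶ Y) : f ∈ I X Y := by
  have h1 := hI.whisker_right X h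
  have e : f = (λ_ X).inv ≫ (𝟙 (𝟙_ C) ▷ X) ≫ (λ_ X).hom ≫ f := by
    simp
  rw [e]
  exact hI.comp_left _ (hI.comp_right _ h1)

/-- The union of a chain of families. -/
lemma mem_sSup_chain {c : Set (Family C)} (hc : IsChain (· ≤ ·) c) (hne : c.Nonempty)
    {X Y : C} {f : X ⟶ Y} : f ∈ (sSup c) X Y ↔ ∃ I ∈ c, f ∈ I X Y := by
  have e : (sSup c) X Y = ⨆ I : c, (I : Family C) X Y := by
    rw [sSup_apply, iSup_apply]
  rw [e]
  have : Nonempty c := hne.to_subtype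
  rw [Submodule.mem_iSup_of_directed]
  · constructor
    · rintro ⟨⟨I, hI⟩, h⟩
      exact ⟨I, hI, h⟩
    · rintro ⟨I, hI, h⟩
      exact ⟨⟨I, hI⟩, h⟩
  · rintro ⟨I, hI⟩ ⟨J, hJ⟩
    rcases hc.total hI hJ with h | h
    · exact ⟨⟨J, hJ⟩, h X Y, le_rfl⟩
    · exact ⟨⟨I, hI⟩, le_rfl, h X Y⟩

lemma isTensorIdeal_sSup {c : Set (Family C)} (hc : IsChain (· ≤ ·) c) (hne : c.Nonempty)
    (h : ∀ I ∈ c, IsTensorIdeal I) : IsTensorIdeal (sSup c) where
  comp_left g f hf := by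
    obtain ⟨I, hI, h1⟩ := (mem_sSup_chain hc hne).1 hf
    exact (mem_sSup_chain hc hne).2 ⟨I, hI, (h I hI).comp_left g h1⟩
  comp_right g hf := by
    obtain ⟨I, hI, h1⟩ := (mem_sSup_chain hc hne).1 hf
    exact (mem_sSup_chain hc hne).2 ⟨I, hI, (h I hI).comp_right g h1⟩
  whisker_left Z _ _ f hf := by
    obtain ⟨I, hI, h1⟩ := (mem_sSup_chain hc hne).1 hf
    exact (mem_sSup_chain hc hne).2 ⟨I, hI, (h I hI).whisker_left Z h1⟩
  whisker_right Z _ _ f hf := by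
    obtain ⟨I, hI, h1⟩ := (mem_sSup_chain hc hne).1 hf
    exact (mem_sSup_chain hc hne).2 ⟨I, hI, (h I hI).whisker_right Z h1⟩

lemma isTensorIdeal_bot : IsTensorIdeal (fun _ _ => ⊥ : Family C) where
  comp_left g f hf := by
    rw [Submodule.mem_bot] at hf ⊢
    rw [hf, Limits.comp_zero]
  comp_right g hf := by
    rw [Submodule.mem_bot] at hf ⊢
    rw [hf, Limits.zero_comp]
  whisker_left Z _ _ f hf := by
    rw [Submodule.mem_bot] at hf ⊢
    rw [hf, MonoidalPreadditive.whiskerLeft_zero]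
  whisker_right Z _ _ f hf := by
    rw [Submodule.mem_bot] at hf ⊢
    rw [hf, MonoidalPreadditive.zero_whiskerRight]

/-- A multiplicative system of morphisms: a nonempty class of morphisms such that each tensor ideal
containing the tensor product of two members contains a member. -/
structure IsMult (S : ∀ X Y : C, (X ⟶ Y) → Prop) : Prop where
  nonempty : ∃ (X Y : C) (f : X ⟶ Y), S X Y f
  mul : ∀ {X Y Z W : C} {f : X ⟶ Y} {g : Z ⟶ W}, S X Y f → S Z W g →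
    ∀ I : Family C, IsTensorIdeal I → f ⊗ₘ g ∈ I (X ⊗ Z) (Y ⊗ W) →
      ∃ (U V : C) (h : U ⟶ V), S U V h ∧ h ∈ I U V

/-- The family `I` avoids the system `S`. -/
def Avoids (S : ∀ X Y : C, (X ⟶ Y) → Prop) (I : Family C) : Prop :=
  ∀ (X Y : C) (f : X ⟶ Y), S X Y f → f ∉ I X Y

/-- A tensor ideal which is maximal among those avoiding a multiplicative system is prime. -/
lemma isPrime_of_maximal {S : ∀ X Y : C, (X ⟶ Y) → Prop} (hS : IsMult S) {P : Family C}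
    (hP : Maximal (fun I => IsTensorIdeal I ∧ Avoids S I) P) : IsPrimeIdeal P := by
  obtain ⟨⟨hA, hav⟩, hmax⟩ := hP
  have key : ∀ {X Y Z W : C} (f : X ⟶ Y) (g : Z ⟶ W), f ⊗ₘ g ∈ P (X ⊗ Z) (Y ⊗ W) →
      g ∉ P Z W → ∃ (U V : C) (s : U ⟶ V), S U V s ∧ f ⊗ₘ s ∈ P (X ⊗ U) (Y ⊗ V) := by
    intro X Y Z W f g hfg hg
    by_contra hcon
    push Not at hcon
    have h1 : Avoids S (Ten.colon P f) := by
      intro U V s hs hs'
      exact hcon U V s hs hs'
    have h2 := hmax ⟨hA.colon f, h1⟩ (hA.le_colon f)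
    exact hg (h2 Z W hfg)
  refine { hA with unit_notMem := ?_, prime := ?_ }
  · intro h
    obtain ⟨X, Y, f, hf⟩ := hS.nonempty
    exact hav X Y f hf (hA.mem_of_unit h f)
  · intro X Y Z W f g hfg
    by_contra hcon
    push Not at hcon
    obtain ⟨hfP, hgP⟩ := hcon
    obtain ⟨U, V, s, hs, hfs⟩ := key f g hfg hgP
    obtain ⟨U', V', t, ht, hst⟩ := key s f (hA.swap hfs) hfP
    obtain ⟨U'', V'', r, hr, hrP⟩ := hS.mul hs ht P hA hst
    exact hav _ _ r hr hrP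

/-- A tensor ideal avoiding a multiplicative system is contained in a prime one which avoids it. -/
lemma exists_prime_avoids {S : ∀ X Y : C, (X ⟶ Y) → Prop} (hS : IsMult S) {I : Family C}
    (hI : IsTensorIdeal I) (hav : Avoids S I) :
    ∃ P : Family C, IsPrimeIdeal P ∧ I ≤ P ∧ Avoids S P := by
  have hz : ∀ c ⊆ {I : Family C | IsTensorIdeal I ∧ Avoids S I}, IsChain (· ≤ ·) c →
      ∀ y ∈ c, ∃ ub ∈ {I : Family C | IsTensorIdeal I ∧ Avoids S I}, ∀ z ∈ c, z ≤ ub := by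
    intro c hc hchain y hy
    refine ⟨sSup c, ⟨isTensorIdeal_sSup hchain ⟨y, hy⟩ (fun J hJ => (hc hJ).1), ?_⟩,
      fun J hJ => le_sSup hJ⟩
    intro X Y f hf hf'
    obtain ⟨J, hJ, h1⟩ := (mem_sSup_chain hchain ⟨y, hy⟩).1 hf'
    exact (hc hJ).2 X Y f hf h1
  obtain ⟨P, hIP, hP⟩ := zorn_le_nonempty₀ {I : Family C | IsTensorIdeal I ∧ Avoids S I} hz I
    ⟨hI, hav⟩
  exact ⟨P, isPrime_of_maximal hS hP, hIP, hP.1.2⟩

end preadditive

end Pool.Agent.TH829.Ten
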