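import Pool.Agent.TH829.Ten.Perm

/-!
# The permutations of the factors define an action of the symmetric group
-/

set_option autoImplicit false

open CategoryTheory MonoidalCategory

universe v u

namespace Pool.Agent.TH829.Ten

open Pool.Agent.TH137.DG (tpow insAct permTail permAct grpAct)

set_option linter.unusedSectionVars false

section cat

variable {C : Type u} [Category.{v} C] [MonoidalCategory C] [SymmetricCategory C]

/-- The exchange of the factors `i` and `i + 1` of `a^{⊗ (n + 1)}`. -/
def sw (a : C) : ∀ n : ℕ, Fin n → (tpow a (n + 1) ⟶ tpow a (n + 1))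
  | 0, _ => 𝟙 _
  | n + 1, i => Fin.cases (motive := fun _ => tpow a (n + 2) ⟶ tpow a (n + 2))
      (s0 a (tpow a n)) (fun i' => a ◁ sw a n i') i

lemma sw_zero (a : C) (n : ℕ) : sw a (n + 1) 0 = s0 a (tpow a n) := rfl

lemma sw_succ (a : C) (n : ℕ) (i : Fin n) : sw a (n + 1) i.succ = a ◁ sw a n i := rfl

lemma s0_s0 (a X : C) : s0 a X ≫ s0 a X = 𝟙 _ := by
  unfold s0
  simp only [Category.assoc, Iso.hom_inv_id_assoc]
  rw [← comp_whiskerRight_assoc, SymmetricCategory.symmetry, id_whiskerRight, Category.id_comp,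
    Iso.inv_hom_id]

/-- The braid relation. -/
lemma s0_braid (a X : C) : s0 a (a ⊗ X) ≫ a ◁ s0 a X ≫ s0 a (a ⊗ X) =
    a ◁ s0 a X ≫ s0 a (a ⊗ X) ≫ a ◁ s0 a X := by
  have h := BraidedCategory.yang_baxter a a a
  have e1 : s0 a (a ⊗ X) ≫ a ◁ s0 a X ≫ s0 a (a ⊗ X) =
      𝟙 _ ⊗≫ (((α_ a a a).inv ≫ (β_ a a).hom ▷ a ≫ (α_ a a a).hom ≫
        a ◁ (β_ a a).hom ≫ (α_ a a a).inv ≫ (β_ a a).hom ▷ a ≫ (α_ a a a).hom) ▷ X) ⊗≫ 𝟙 _ := by
    unfold s0
    monoidal
  have e2 : a ◁ s0 a X ≫ s0 a (a ⊗ X) ≫ a ◁ s0 a X =
      𝟙 _ ⊗≫ ((a ◁ (β_ a a).hom ≫ (α_ a a a).inv ≫ (β_ a a).hom ▷ a ≫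
        (α_ a a a).hom ≫ a ◁ (β_ a a).hom) ▷ X) ⊗≫ 𝟙 _ := by
    unfold s0
    monoidal
  rw [e1, e2, h]

/-! ### Exchanges and insertions -/

lemma sw_sw (a : C) (n : ℕ) (i : Fin n) : sw a n i ≫ sw a n i = 𝟙 _ := by
  induction n with
  | zero => exact i.elim0
  | succ n ih =>
    refine Fin.cases ?_ (fun i => ?_) i
    · exact s0_s0 a _
    · rw [sw_succ, ← whiskerLeft_comp, ih, whiskerLeft_id]

lemma ins_sw_le (a : C) (k : ℕ) (j : Fin (k + 2)) (i : Fin k) (h : (j : ℕ) ≤ i) :
    insAct a (k + 1) j ≫ sw a (k + 1) i.succ = a ◁ sw a k i ≫ insAct a (k + 1) j := by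
  induction k with
  | zero => exact i.elim0
  | succ k ih =>
    revert h
    refine Fin.cases ?_ (fun j => ?_) j
    · intro _
      rw [insAct_zero, Category.id_comp, Category.comp_id, sw_succ]
    · refine Fin.cases ?_ (fun i => ?_) i
      · intro h
        simp at h
      · intro h
        have h1 : (j : ℕ) ≤ i := by simpa using h
        rw [insAct_succ', sw_succ, sw_succ, Category.assoc, ← whiskerLeft_comp, ← sw_succ a k i,
          ih j i h1, whiskerLeft_comp, ← Category.assoc, s0_natural, Category.assoc]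
        rfl

lemma ins_sw_lt (a : C) (k : ℕ) (j : Fin (k + 2)) (i : Fin k) (h : (i : ℕ) + 1 < j) :
    insAct a (k + 1) j ≫ sw a (k + 1) i.castSucc = a ◁ sw a k i ≫ insAct a (k + 1) j := by
  induction k with
  | zero => exact i.elim0
  | succ k ih =>
    revert h
    refine Fin.cases ?_ (fun j => ?_) j
    · intro h
      simp at h
    · refine Fin.cases ?_ (fun i => ?_) i
      · refine Fin.cases ?_ (fun j => ?_) j
        · intro h
          simp at h
        · intro _
          have e : (Fin.castSucc (0 : Fin (k + 1))) = 0 := rfl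
          rw [e, sw_zero, sw_zero, insAct_succ', insAct_succ', whiskerLeft_comp]
          simp only [Category.assoc]
          rw [← s0_natural, reassoc_of% (s0_braid a (tpow a k))]
      · intro h
        have h1 : (i : ℕ) + 1 < j := by simpa using h
        have e : (i.succ).castSucc = (i.castSucc).succ := rfl
        rw [e, insAct_succ', sw_succ, sw_succ, Category.assoc, ← whiskerLeft_comp,
          ih j i h1, whiskerLeft_comp, ← Category.assoc, s0_natural, Category.assoc]

lemma ins_sw_succ (a : C) (k : ℕ) (i : Fin (k + 1)) :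
    insAct a (k + 1) i.succ ≫ sw a (k + 1) i = insAct a (k + 1) i.castSucc := by
  induction k with
  | zero =>
    have e : i = 0 := Subsingleton.elim (α := Fin 1) _ _
    subst e
    have e1 : (Fin.castSucc (0 : Fin 1)) = 0 := rfl
    rw [e1, insAct_zero, insAct_succ', insAct_zero, sw_zero, whiskerLeft_id, Category.comp_id,
      s0_s0]
  | succ k ih =>
    refine Fin.cases ?_ (fun i => ?_) i
    · have e1 : (Fin.castSucc (0 : Fin (k + 2))) = 0 := rfl
      rw [e1, insAct_zero, insAct_succ', insAct_zero, sw_zero, whiskerLeft_id, Category.comp_id,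
        s0_s0]
    · have e : (i.succ).castSucc = (i.castSucc).succ := rfl
      rw [e, insAct_succ' a (k + 1) i.succ, insAct_succ' a (k + 1) i.castSucc, sw_succ,
        Category.assoc, ← whiskerLeft_comp, ih]

lemma ins_sw_castSucc (a : C) (k : ℕ) (i : Fin (k + 1)) :
    insAct a (k + 1) i.castSucc ≫ sw a (k + 1) i = insAct a (k + 1) i.succ := by
  rw [← ins_sw_succ, Category.assoc, sw_sw, Category.comp_id]

/-! ### Permutations -/

/-- The exchange of `i` and `i + 1`. -/
def swp {k : ℕ} (i : Fin k) : Equiv.Perm (Fin (k + 1)) := Equiv.swap i.castSucc i.succ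

lemma swp_val {k : ℕ} (i : Fin k) (x : Fin (k + 1)) :
    (swp i x : ℕ) = if (x : ℕ) = i then (i : ℕ) + 1 else if (x : ℕ) = i + 1 then (i : ℕ)
      else x := by
  unfold swp
  rw [Equiv.swap_apply_def]
  by_cases h1 : x = i.castSucc
  · have h2 : (x : ℕ) = i := by rw [h1]; rfl
    rw [if_pos h1, if_pos h2]
    rfl
  · have h2 : (x : ℕ) ≠ i := fun h => h1 (Fin.ext h)
    rw [if_neg h1, if_neg h2]
    by_cases h3 : x = i.succ
    · have h4 : (x : ℕ) = i + 1 := by rw [h3]; rfl
      rw [if_pos h3, if_pos h4]
      rfl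
    · have h4 : (x : ℕ) ≠ i + 1 := fun h => h3 (Fin.ext h)
      rw [if_neg h3, if_neg h4]

lemma succAbove_val {k : ℕ} (j : Fin (k + 1)) (y : Fin k) :
    (j.succAbove y : ℕ) = if (y : ℕ) < j then (y : ℕ) else y + 1 := by
  rw [Fin.succAbove]
  split_ifs with h1 h2 h2
  · rfl
  · exact absurd (Fin.lt_def.1 h1) h2
  · exact absurd (Fin.lt_def.2 h2) h1
  · rfl

lemma permTail_mul {n : ℕ} (π σ : Equiv.Perm (Fin (n + 1))) (ρ : Equiv.Perm (Fin n))
    (h : ∀ y, (π (σ 0)).succAbove (ρ y) = π ((σ 0).succAbove y)) :
    permTail (π * σ) = ρ * permTail σ := by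
  ext1 x
  have h1 := permTail_apply (π * σ) x
  have e1 : (π * σ) 0 = π (σ 0) := rfl
  have e2 : (π * σ) x.succ = π (σ x.succ) := rfl
  rw [e1, e2, ← permTail_apply σ x, ← h] at h1
  exact Fin.succAbove_right_injective h1

lemma permAct_swp (a : C) (k : ℕ) (i : Fin k) (σ : Equiv.Perm (Fin (k + 1))) :
    permAct a (k + 1) (swp i * σ) = permAct a (k + 1) σ ≫ sw a k i := by
  induction k with
  | zero => exact i.elim0
  | succ k ih =>
    rw [permAct_succ a (k + 1) (swp i * σ), permAct_succ a (k + 1) σ]
    have e0 : (swp i * σ) 0 = swp i (σ 0) := rfl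
    rw [e0]
    have hv := swp_val i (σ 0)
    generalize hj : σ 0 = j at hv ⊢
    by_cases h1 : j = i.succ
    · have e1 : swp i j = i.castSucc := by rw [h1, swp, Equiv.swap_apply_right]
      have e2 : permTail (swp i * σ) = permTail σ := by
        have := permTail_mul (swp i) σ 1 (fun y => by
          rw [hj]
          apply Fin.ext
          have h2 : (j : ℕ) = i + 1 := by rw [h1]; rfl
          rw [succAbove_val, swp_val, swp_val, succAbove_val]
          simp only [Equiv.Perm.coe_one, id_eq]
          split_ifs <;> omega)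
        rw [this, one_mul]
      rw [e1, e2, h1, Category.assoc, ins_sw_succ]
    · by_cases h2 : j = i.castSucc
      · have e1 : swp i j = i.succ := by rw [h2, swp, Equiv.swap_apply_left]
        have e2 : permTail (swp i * σ) = permTail σ := by
          have := permTail_mul (swp i) σ 1 (fun y => by
            rw [hj]
            apply Fin.ext
            have h3 : (j : ℕ) = i := by rw [h2]; rfl
            rw [succAbove_val, swp_val, swp_val, succAbove_val]
            simp only [Equiv.Perm.coe_one, id_eq]
            split_ifs <;> omega)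
          rw [this, one_mul]
        rw [e1, e2, h2, Category.assoc, ins_sw_castSucc]
      · have h3 : (j : ℕ) ≠ i + 1 := fun h => h1 (Fin.ext h)
        have h4 : (j : ℕ) ≠ i := fun h => h2 (Fin.ext h)
        have e1 : swp i j = j := by
          apply Fin.ext
          rw [hv, if_neg h4, if_neg h3]
        by_cases h5 : (i : ℕ) + 1 < j
        · obtain ⟨i', rfl⟩ : ∃ i' : Fin k, i'.castSucc = i :=
            ⟨⟨i, by have := j.2; omega⟩, rfl⟩
          have e2 : permTail (swp i'.castSucc * σ) = swp i' * permTail σ :=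
            permTail_mul _ σ _ (fun y => by
              rw [hj, e1]
              apply Fin.ext
              rw [succAbove_val, swp_val, swp_val, succAbove_val]
              simp only [Fin.val_castSucc] at h3 h4 h5 ⊢
              split_ifs <;> omega)
          rw [e1, e2, ih, whiskerLeft_comp, Category.assoc, Category.assoc,
            ins_sw_lt a k j i' h5]
        · have h6 : (j : ℕ) < i := by omega
          obtain ⟨i', rfl⟩ : ∃ i' : Fin k, i'.succ = i :=
            ⟨⟨i - 1, by have := i.2; omega⟩, by apply Fin.ext; simp; omega⟩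
          have h7 : (j : ℕ) ≤ i' := by simp at h6; omega
          have e2 : permTail (swp i'.succ * σ) = swp i' * permTail σ :=
            permTail_mul _ σ _ (fun y => by
              rw [hj, e1]
              apply Fin.ext
              rw [succAbove_val, swp_val, swp_val, succAbove_val]
              simp only [Fin.val_succ] at h3 h4 h5 ⊢
              split_ifs <;> omega)
          rw [e1, e2, ih, whiskerLeft_comp, Category.assoc, Category.assoc,
            ins_sw_le a k j i' h7]

lemma permTail_one (n : ℕ) : permTail (1 : Equiv.Perm (Fin (n + 1))) = 1 := by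
  ext1 x
  have h1 := permTail_apply (1 : Equiv.Perm (Fin (n + 1))) x
  have e : (1 : Equiv.Perm (Fin (n + 1))) 0 = 0 := rfl
  rw [e, Fin.zero_succAbove] at h1
  have h2 : (1 : Equiv.Perm (Fin (n + 1))) x.succ = x.succ := rfl
  rw [h2] at h1
  exact Fin.succ_injective _ h1

lemma permAct_one (a : C) (n : ℕ) : permAct a n 1 = 𝟙 _ := by
  induction n with
  | zero => rfl
  | succ n ih =>
    have e : (1 : Equiv.Perm (Fin (n + 1))) 0 = 0 := rfl
    rw [permAct_succ, permTail_one, ih, e, insAct_zero, whiskerLeft_id, Category.comp_id]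

/-- The permutations of the factors define an action of the symmetric group. -/
theorem permAct_mul (a : C) (n : ℕ) (π σ : Equiv.Perm (Fin n)) :
    permAct a n (π * σ) = permAct a n σ ≫ permAct a n π := by
  cases n with
  | zero => exact (Category.comp_id _).symm
  | succ k =>
    have h : π ∈ Submonoid.closure (Set.range fun i : Fin k => Equiv.swap i.castSucc i.succ) := by
      rw [Equiv.Perm.mclosure_swap_castSucc_succ]
      exact Submonoid.mem_top _
    revert σ
    induction h using Submonoid.closure_induction with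
    | mem x hx =>
      obtain ⟨i, rfl⟩ := hx
      intro σ
      have h1 := permAct_swp a k i σ
      have h2 := permAct_swp a k i 1
      rw [mul_one, permAct_one, Category.id_comp] at h2
      rw [swp] at h1 h2
      rw [h1, h2]
    | one =>
      intro σ
      rw [one_mul, permAct_one, Category.comp_id]
    | mul x y _ _ hx hy =>
      intro σ
      rw [mul_assoc, hx, hy, hx, Category.assoc]

end cat

end Pool.Agent.TH829.Ten
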