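import Pool.Agent.TH137.DG.Schur

/-!
# Prime tensor ideals of `ℚ`-linear symmetric monoidal categories: definitions
-/

set_option autoImplicit false

open CategoryTheory MonoidalCategory

universe v u

namespace Pool.Agent.TH829.Ten

variable {C : Type u} [Category.{v} C] [MonoidalCategory C] [Preadditive C] [Linear ℚ C]

/-- A family of `ℚ`-subspaces `I X Y` of all the spaces of morphisms `X ⟶ Y`. -/
abbrev Family (C : Type u) [Category.{v} C] [Preadditive C] [Linear ℚ C] : Type (max u v) :=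
  ∀ X Y : C, Submodule ℚ (X ⟶ Y)

/-- The family `I` is a tensor ideal: it is stable under composition with arbitrary morphisms on
both sides and under tensor products with objects. -/
structure IsTensorIdeal (I : Family C) : Prop where
  comp_left : ∀ {X Y Z : C} (g : X ⟶ Y) {f : Y ⟶ Z}, f ∈ I Y Z → g ≫ f ∈ I X Z
  comp_right : ∀ {X Y Z : C} {f : X ⟶ Y} (g : Y ⟶ Z), f ∈ I X Y → f ≫ g ∈ I X Z
  whisker_left : ∀ (Z : C) {X Y : C} {f : X ⟶ Y}, f ∈ I X Y → Z ◁ f ∈ I (Z ⊗ X) (Z ⊗ Y)
  whisker_right : ∀ (Z : C) {X Y : C} {f : X ⟶ Y}, f ∈ I X Y → f ▷ Z ∈ I (X ⊗ Z) (Y ⊗ Z)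

/-- The tensor ideal `P` is prime: it does not contain all morphisms, and a tensor product `f ⊗ g`
belongs to `P` only if `f` or `g` does. -/
structure IsPrimeIdeal (P : Family C) : Prop extends IsTensorIdeal P where
  unit_notMem : 𝟙 (𝟙_ C) ∉ P (𝟙_ C) (𝟙_ C)
  prime : ∀ {X Y Z W : C} (f : X ⟶ Y) (g : Z ⟶ W), f ⊗ₘ g ∈ P (X ⊗ Z) (Y ⊗ W) →
    f ∈ P X Y ∨ g ∈ P Z W

/-- The Schur functor of the Young diagram `μ` kills the object `a` modulo `I`: for some numbering
`T` of the cells of `μ` the Young symmetrizer of `T` acts on the tensor power of `a` as an element of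
`I`. -/
def Kills [BraidedCategory C] (I : Family C) (μ : YoungDiagram) (a : C) : Prop :=
  ∃ (n : ℕ) (T : Fin n ≃ μ.cells), Pool.Agent.TH137.DG.grpAct a n
    (Pool.Agent.TH137.DG.youngSymmetrizer T) ∈
      I (Pool.Agent.TH137.DG.tpow a n) (Pool.Agent.TH137.DG.tpow a n)

/-- The sum of two Young diagrams: the lengths of the rows are added. -/
def addD (μ ν : YoungDiagram) : YoungDiagram where
  cells := ((Finset.range (μ.colLen 0 + ν.colLen 0)) ×ˢ
    (Finset.range (μ.rowLen 0 + ν.rowLen 0))).filter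
      fun c => c.2 < μ.rowLen c.1 + ν.rowLen c.1
  isLowerSet := by
    rintro ⟨i, j⟩ ⟨i', j'⟩ h hc
    obtain ⟨h1, h2⟩ := Prod.mk_le_mk.1 h
    simp only [Finset.coe_filter, Finset.mem_product, Finset.mem_range, Set.mem_ofPred_eq] at hc ⊢
    have h3 := μ.rowLen_anti i' i h1
    have h4 := ν.rowLen_anti i' i h1
    omega

end Pool.Agent.TH829.Ten
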