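import Pool.Agent.TH829.Ten.Defs

/-!
# The sum of two Young diagrams
-/

set_option autoImplicit false

namespace Pool.Agent.TH829.Ten

lemma mem_addD {μ ν : YoungDiagram} {i j : ℕ} :
    (i, j) ∈ addD μ ν ↔ j < μ.rowLen i + ν.rowLen i := by
  rw [← YoungDiagram.mem_cells, addD]
  simp only [Finset.mem_filter, Finset.mem_product, Finset.mem_range]
  constructor
  · exact fun h => h.2
  · intro h
    have h3 := μ.rowLen_anti 0 i (Nat.zero_le _)
    have h4 := ν.rowLen_anti 0 i (Nat.zero_le _)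
    refine ⟨⟨?_, by omega⟩, h⟩
    rcases Nat.eq_zero_or_pos (μ.rowLen i) with h1 | h1
    · have h2 : 0 < ν.rowLen i := by omega
      have h5 := YoungDiagram.mem_iff_lt_colLen.1 (YoungDiagram.mem_iff_lt_rowLen.2 h2)
      omega
    · have h5 := YoungDiagram.mem_iff_lt_colLen.1 (YoungDiagram.mem_iff_lt_rowLen.2 h1)
      omega

lemma rowLen_addD (μ ν : YoungDiagram) (i : ℕ) :
    (addD μ ν).rowLen i = μ.rowLen i + ν.rowLen i := by
  apply eq_of_forall_lt_iff
  intro j
  rw [← YoungDiagram.mem_iff_lt_rowLen, mem_addD]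

lemma card_cells (μ : YoungDiagram) {K : ℕ} (hK : μ.colLen 0 ≤ K) :
    μ.cells.card = ∑ i ∈ Finset.range K, μ.rowLen i := by
  rw [Finset.card_eq_sum_card_fiberwise (f := Prod.fst) (t := Finset.range K)]
  · apply Finset.sum_congr rfl
    intro i _
    rw [YoungDiagram.rowLen_eq_card]
    rfl
  · rintro ⟨i, j⟩ h
    have h1 : (i, j) ∈ μ := (YoungDiagram.mem_cells _).1 h
    have h2 : (i, 0) ∈ μ := μ.up_left_mem le_rfl (Nat.zero_le _) h1
    have h3 := YoungDiagram.mem_iff_lt_colLen.1 h2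
    simp only [Finset.coe_range, Set.mem_Iio]
    omega

lemma card_addD (μ ν : YoungDiagram) :
    (addD μ ν).cells.card = μ.cells.card + ν.cells.card := by
  let K := μ.colLen 0 + ν.colLen 0 + (addD μ ν).colLen 0
  rw [card_cells μ (K := K) (by omega), card_cells ν (K := K) (by omega),
    card_cells (addD μ ν) (K := K) (by omega), ← Finset.sum_add_distrib]
  apply Finset.sum_congr rfl
  intro i _
  exact rowLen_addD μ ν i

/-- The place of the column `c` of `μ` in the sum. -/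
def fcol (μ ν : YoungDiagram) (c : ℕ) : ℕ := c + ν.rowLen (μ.colLen c)

/-- The place of the column `d` of `ν` in the sum. -/
def gcol (μ ν : YoungDiagram) (d : ℕ) : ℕ := d + μ.rowLen (ν.colLen d - 1)

lemma fcol_lt {μ ν : YoungDiagram} {c c' : ℕ} (h : c < c') : fcol μ ν c < fcol μ ν c' := by
  have h1 := ν.rowLen_anti _ _ (μ.colLen_anti c c' h.le)
  unfold fcol
  omega

lemma gcol_lt {μ ν : YoungDiagram} {c c' : ℕ} (h : c < c') : gcol μ ν c < gcol μ ν c' := by
  have h1 := μ.rowLen_anti _ _ (Nat.sub_le_sub_right (ν.colLen_anti c c' h.le) 1)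
  unfold gcol
  omega

lemma fcol_inj {μ ν : YoungDiagram} {c c' : ℕ} (h : fcol μ ν c = fcol μ ν c') : c = c' := by
  rcases lt_trichotomy c c' with h1 | h1 | h1
  · exact absurd h (fcol_lt h1).ne
  · exact h1
  · exact absurd h (fcol_lt h1).ne'

lemma gcol_inj {μ ν : YoungDiagram} {c c' : ℕ} (h : gcol μ ν c = gcol μ ν c') : c = c' := by
  rcases lt_trichotomy c c' with h1 | h1 | h1
  · exact absurd h (gcol_lt h1).ne
  · exact h1
  · exact absurd h (gcol_lt h1).ne'

lemma fcol_ne_gcol {μ ν : YoungDiagram} {c d i : ℕ} (hd : (i, d) ∈ ν) :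
    fcol μ ν c ≠ gcol μ ν d := by
  have hy : 0 < ν.colLen d := lt_of_le_of_lt (Nat.zero_le _) (YoungDiagram.mem_iff_lt_colLen.1 hd)
  have h1 : d < ν.rowLen (μ.colLen c) ↔ μ.colLen c < ν.colLen d := by
    rw [← YoungDiagram.mem_iff_lt_rowLen, YoungDiagram.mem_iff_lt_colLen]
  have h2 : c < μ.rowLen (ν.colLen d - 1) ↔ ν.colLen d - 1 < μ.colLen c := by
    rw [← YoungDiagram.mem_iff_lt_rowLen, YoungDiagram.mem_iff_lt_colLen]
  unfold fcol gcol
  by_cases h : μ.colLen c < ν.colLen d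
  · have h3 := h1.2 h
    have h4 : ¬ c < μ.rowLen (ν.colLen d - 1) := by
      rw [h2]
      omega
    omega
  · have h3 : ¬ d < ν.rowLen (μ.colLen c) := by
      rw [h1]
      exact h
    have h4 : c < μ.rowLen (ν.colLen d - 1) := by
      rw [h2]
      omega
    omega

lemma fcol_mem {μ ν : YoungDiagram} {i c : ℕ} (h : (i, c) ∈ μ) : (i, fcol μ ν c) ∈ addD μ ν := by
  rw [mem_addD]
  have h1 := YoungDiagram.mem_iff_lt_rowLen.1 h
  have h2 := YoungDiagram.mem_iff_lt_colLen.1 h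
  have h3 := ν.rowLen_anti _ _ h2.le
  unfold fcol
  omega

lemma gcol_mem {μ ν : YoungDiagram} {i d : ℕ} (h : (i, d) ∈ ν) : (i, gcol μ ν d) ∈ addD μ ν := by
  rw [mem_addD]
  have h1 := YoungDiagram.mem_iff_lt_rowLen.1 h
  have h2 := YoungDiagram.mem_iff_lt_colLen.1 h
  have h3 := μ.rowLen_anti i (ν.colLen d - 1) (by omega)
  unfold gcol
  omega

/-- The cells of two Young diagrams as cells of the sum. -/
def toSum (μ ν : YoungDiagram) : μ.cells ⊕ ν.cells → (addD μ ν).cells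
  | Sum.inl x => ⟨(x.1.1, fcol μ ν x.1.2), (YoungDiagram.mem_cells _).2
      (fcol_mem ((YoungDiagram.mem_cells (x.1.1, x.1.2)).1 x.2))⟩
  | Sum.inr x => ⟨(x.1.1, gcol μ ν x.1.2), (YoungDiagram.mem_cells _).2
      (gcol_mem ((YoungDiagram.mem_cells (x.1.1, x.1.2)).1 x.2))⟩

lemma toSum_injective (μ ν : YoungDiagram) : Function.Injective (toSum μ ν) := by
  rintro (⟨⟨i, c⟩, h⟩ | ⟨⟨i, c⟩, h⟩) (⟨⟨i', c'⟩, h'⟩ | ⟨⟨i', c'⟩, h'⟩) he
  · have h1 := Prod.ext_iff.1 (congrArg Subtype.val he)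
    have h2 : i = i' := h1.1
    have h3 := fcol_inj h1.2
    simp only at h3
    subst h2 h3
    rfl
  · have h1 := Prod.ext_iff.1 (congrArg Subtype.val he)
    exact absurd h1.2 (fcol_ne_gcol ((YoungDiagram.mem_cells _).1 h'))
  · have h1 := Prod.ext_iff.1 (congrArg Subtype.val he)
    exact absurd h1.2.symm (fcol_ne_gcol ((YoungDiagram.mem_cells _).1 h))
  · have h1 := Prod.ext_iff.1 (congrArg Subtype.val he)
    have h2 : i = i' := h1.1
    have h3 := gcol_inj h1.2
    simp only at h3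
    subst h2 h3
    rfl

/-- The bijection of the cells. -/
noncomputable def sumEquiv (μ ν : YoungDiagram) : μ.cells ⊕ ν.cells ≃ (addD μ ν).cells :=
  Equiv.ofBijective (toSum μ ν) ((Fintype.bijective_iff_injective_and_card _).2
    ⟨toSum_injective μ ν, by
      rw [Fintype.card_sum, Fintype.card_coe, Fintype.card_coe, Fintype.card_coe, card_addD]⟩)

lemma sumEquiv_inl (μ ν : YoungDiagram) (x : μ.cells) :
    (sumEquiv μ ν (Sum.inl x)).1 = (x.1.1, fcol μ ν x.1.2) := rfl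

lemma sumEquiv_inr (μ ν : YoungDiagram) (x : ν.cells) :
    (sumEquiv μ ν (Sum.inr x)).1 = (x.1.1, gcol μ ν x.1.2) := rfl

end Pool.Agent.TH829.Ten
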