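import Pool.Agent.TH829.Ten.Young

/-!
# Schur-finiteness can be checked modulo all prime tensor ideals
-/

set_option autoImplicit false

open CategoryTheory MonoidalCategory

universe v u

namespace Pool.Agent.TH829.Ten

open Pool.Agent.TH137.DG (tpow insAct permTail permAct grpAct rowStab colStab youngSymmetrizer)

set_option linter.unusedSectionVars false

section cat

variable {C : Type u} [Category.{v} C] [MonoidalCategory C] [SymmetricCategory C]
  [Preadditive C] [Linear ℚ C] [MonoidalPreadditive C]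

lemma grpAct_add (a : C) (n : ℕ) (c d : MonoidAlgebra ℚ (Equiv.Perm (Fin n))) :
    grpAct a n (c + d) = grpAct a n c + grpAct a n d := by
  rw [grpAct_eq, grpAct_eq, grpAct_eq, ← Finset.sum_add_distrib]
  apply Finset.sum_congr rfl
  intro σ _
  rw [MonoidAlgebra.coeff_add, Finsupp.add_apply, add_smul]

lemma grpAct_smul (a : C) (n : ℕ) (q : ℚ) (c : MonoidAlgebra ℚ (Equiv.Perm (Fin n))) :
    grpAct a n (q • c) = q • grpAct a n c := by
  rw [grpAct_eq, grpAct_eq, Finset.smul_sum]
  apply Finset.sum_congr rfl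
  intro σ _
  rw [MonoidAlgebra.coeff_smul, Finsupp.smul_apply, smul_smul, smul_eq_mul]

/-- The action of the group algebra as a linear map. -/
noncomputable def grpLin (a : C) (n : ℕ) :
    MonoidAlgebra ℚ (Equiv.Perm (Fin n)) →ₗ[ℚ] (tpow a n ⟶ tpow a n) where
  toFun := grpAct a n
  map_add' := grpAct_add a n
  map_smul' := grpAct_smul a n

lemma grpAct_sum (a : C) (n : ℕ) {ι : Type*} (s : Finset ι)
    (c : ι → MonoidAlgebra ℚ (Equiv.Perm (Fin n))) :
    grpAct a n (∑ i ∈ s, c i) = ∑ i ∈ s, grpAct a n (c i) := map_sum (grpLin a n) c s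

lemma grpAct_single (a : C) (n : ℕ) (σ : Equiv.Perm (Fin n)) (q : ℚ) :
    grpAct a n (MonoidAlgebra.single σ q) = q • permAct a n σ := by
  rw [grpAct_eq, Finset.sum_eq_single σ]
  · rw [MonoidAlgebra.coeff_single, Finsupp.single_eq_same]
  · intro τ _ h
    rw [MonoidAlgebra.coeff_single, Finsupp.single_eq_of_ne h, zero_smul]
  · intro h
    exact absurd (Finset.mem_univ _) h

/-- The group algebra acts. -/
lemma grpAct_mul (a : C) (n : ℕ) (c d : MonoidAlgebra ℚ (Equiv.Perm (Fin n))) :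
    grpAct a n (c * d) = grpAct a n d ≫ grpAct a n c := by
  conv_lhs => rw [eq_sum_single c, eq_sum_single d, Finset.sum_mul_sum, grpAct_sum]
  rw [grpAct_eq a n c, grpAct_eq a n d, Preadditive.comp_sum]
  apply Finset.sum_congr rfl
  intro σ _
  rw [grpAct_sum, Preadditive.sum_comp]
  apply Finset.sum_congr rfl
  intro τ _
  rw [MonoidAlgebra.single_mul_single, grpAct_single, permAct_mul, Linear.smul_comp,
    Linear.comp_smul, smul_smul, mul_comm]

lemma grpAct_J1_J2 (a : C) (m n : ℕ) (c : MonoidAlgebra ℚ (Equiv.Perm (Fin n)))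
    (d : MonoidAlgebra ℚ (Equiv.Perm (Fin m))) : grpAct a (L m n) (J1 m n c * J2 m n d) =
      (tiso a m n).inv ≫ (grpAct a n c ⊗ₘ grpAct a m d) ≫ (tiso a m n).hom := by
  rw [← grpAct_prodElt]
  congr 1
  rw [J1_J2]
  apply MonoidAlgebra.coeff_injective
  ext ρ
  rw [prodElt_coeff, MonoidAlgebra.coeff_sum, Finsupp.finsetSum_apply]
  apply Finset.sum_congr rfl
  intro σ _
  rw [MonoidAlgebra.coeff_sum, Finsupp.finsetSum_apply]
  apply Finset.sum_congr rfl
  intro τ _
  rw [MonoidAlgebra.coeff_single, Finsupp.single_apply]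

lemma addD_ext {μ ν : YoungDiagram} (h : ∀ i, μ.rowLen i = ν.rowLen i) : μ = ν := by
  apply SetLike.ext
  rintro ⟨i, j⟩
  rw [YoungDiagram.mem_iff_lt_rowLen, YoungDiagram.mem_iff_lt_rowLen, h]

lemma rowLen_bot (i : ℕ) : (⊥ : YoungDiagram).rowLen i = 0 := by
  by_contra h
  have h1 : 0 < (⊥ : YoungDiagram).rowLen i := Nat.pos_of_ne_zero h
  exact YoungDiagram.notMem_bot _ (YoungDiagram.mem_iff_lt_rowLen.2 h1)

lemma addD_bot (μ : YoungDiagram) : addD μ ⊥ = μ := by
  apply addD_ext
  intro i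
  rw [rowLen_addD, rowLen_bot, add_zero]

/-- The sum of a list of Young diagrams. -/
lemma rowLen_foldr (l : List YoungDiagram) (i : ℕ) :
    (l.foldr addD ⊥).rowLen i = (l.map fun μ => μ.rowLen i).sum := by
  induction l with
  | nil => exact rowLen_bot i
  | cons μ l ih => rw [List.foldr_cons, rowLen_addD, ih, List.map_cons, List.sum_cons]

lemma foldr_append (l l' : List YoungDiagram) :
    (l ++ l').foldr addD ⊥ = addD (l.foldr addD ⊥) (l'.foldr addD ⊥) := by
  apply addD_ext
  intro i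
  rw [rowLen_addD, rowLen_foldr, rowLen_foldr, rowLen_foldr, List.map_append, List.sum_append]

/-- The Young diagram with one cell. -/
def oneCell : YoungDiagram := ⟨{(0, 0)}, by
  rintro ⟨i, j⟩ ⟨i', j'⟩ h hc
  simp only [Finset.coe_singleton, Set.mem_singleton_iff, Prod.mk.injEq] at hc ⊢
  obtain ⟨h1, h2⟩ := Prod.mk_le_mk.1 h
  omega⟩

/-- The system of the Young symmetrizers of the sums of lists of diagrams from a class `D`. -/
def youngSys (a : C) (D : YoungDiagram → Prop) (X Y : C) (f : X ⟶ Y) : Prop :=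
  ∃ (l : List YoungDiagram) (n : ℕ) (T : Fin n ≃ (l.foldr addD ⊥).cells) (e1 : X = tpow a n)
    (e2 : tpow a n = Y), (∀ μ ∈ l, D μ) ∧
      f = eqToHom e1 ≫ grpAct a n (youngSymmetrizer T) ≫ eqToHom e2

lemma youngSys_self (a : C) {D : YoungDiagram → Prop} {l : List YoungDiagram} {n : ℕ}
    (T : Fin n ≃ (l.foldr addD ⊥).cells) (hl : ∀ μ ∈ l, D μ) :
    youngSys a D (tpow a n) (tpow a n) (grpAct a n (youngSymmetrizer T)) :=
  ⟨l, n, T, rfl, rfl, hl, by simp⟩

lemma kills_addD {I : Family C} (hI : IsTensorIdeal I) {a : C} {m n : ℕ} {μ ν : YoungDiagram}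
    (T : Fin n ≃ μ.cells) (U : Fin m ≃ ν.cells)
    (h : grpAct a n (youngSymmetrizer T) ⊗ₘ grpAct a m (youngSymmetrizer U) ∈
      I (tpow a n ⊗ tpow a m) (tpow a n ⊗ tpow a m)) :
    grpAct a (L m n) (youngSymmetrizer (numb T U)) ∈ I (tpow a (L m n)) (tpow a (L m n)) := by
  obtain ⟨q, hq, h1⟩ := young_prod T U
  have h2 : youngSymmetrizer (numb T U) = q⁻¹ • (setSum (rowStab (numb T U)) *
    (J1 m n (youngSymmetrizer T) * J2 m n (youngSymmetrizer U))) := by
    rw [h1, smul_smul, inv_mul_cancel₀ hq, one_smul]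
  rw [h2, grpAct_smul, grpAct_mul, grpAct_J1_J2]
  apply Submodule.smul_mem
  exact hI.comp_right _ (hI.comp_left _ (hI.comp_right _ h))

lemma isMult_youngSys (a : C) (D : YoungDiagram → Prop) : IsMult (C := C) (youngSys a D) where
  nonempty := by
    have e : Fin 0 ≃ (([] : List YoungDiagram).foldr addD ⊥).cells := by
      apply Fintype.equivOfCardEq
      rw [Fintype.card_coe]
      rfl
    exact ⟨_, _, _, youngSys_self a (l := []) e (by simp)⟩
  mul := by
    rintro X Y Z W f g ⟨l, n, T, rfl, rfl, hl, rfl⟩ ⟨l', m, U, rfl, rfl, hl', rfl⟩ I hI h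
    simp only [eqToHom_refl, Category.id_comp, Category.comp_id] at h
    have h1 := kills_addD hI T U h
    have e := foldr_append l l'
    have key : ∀ (μ : YoungDiagram) (V : Fin (L m n) ≃ μ.cells),
        grpAct a (L m n) (youngSymmetrizer V) ∈ I (tpow a (L m n)) (tpow a (L m n)) →
        μ = (l ++ l').foldr addD ⊥ → ∃ (V' : Fin (L m n) ≃ ((l ++ l').foldr addD ⊥).cells),
          grpAct a (L m n) (youngSymmetrizer V') ∈ I (tpow a (L m n)) (tpow a (L m n)) := by
      rintro μ V hV rfl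
      exact ⟨V, hV⟩
    obtain ⟨V, hV⟩ := key _ _ h1 e.symm
    refine ⟨_, _, _, youngSys_self a V ?_, hV⟩
    intro μ hμ
    rcases List.mem_append.1 hμ with h2 | h2
    · exact hl μ h2
    · exact hl' μ h2

/-- Let a tensor ideal `I` and, for each prime tensor ideal `P` containing `I`, a Young diagram
`Λ P` which kills `a` modulo `P` be given. Then the sum of finitely many of the diagrams `Λ P` kills
`a` modulo `I`. -/
theorem kills_sum {I : Family C} (hI : IsTensorIdeal I) (a : C) (Λ : Family C → YoungDiagram)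
    (h : ∀ P : Family C, IsPrimeIdeal P → I ≤ P → Kills P (Λ P) a) :
    ∃ l : List (Family C), (∀ P ∈ l, IsPrimeIdeal P ∧ I ≤ P) ∧
      Kills I ((l.map Λ).foldr addD ⊥) a := by
  by_contra hcon
  let D : YoungDiagram → Prop := fun μ => ∃ P : Family C, (IsPrimeIdeal P ∧ I ≤ P) ∧ Λ P = μ
  have hlist : ∀ l : List YoungDiagram, (∀ μ ∈ l, D μ) →
      ∃ l' : List (Family C), (∀ P ∈ l', IsPrimeIdeal P ∧ I ≤ P) ∧ l'.map Λ = l := by
    intro l
    induction l with
    | nil => exact fun _ => ⟨[], by simp, rfl⟩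
    | cons μ l ih =>
      intro hl
      obtain ⟨l', h1, h2⟩ := ih fun ν hν => hl ν (List.mem_cons_of_mem _ hν)
      obtain ⟨P, hP, hPμ⟩ := hl μ List.mem_cons_self
      refine ⟨P :: l', ?_, by rw [List.map_cons, h2, hPμ]⟩
      intro Q hQ
      rcases List.mem_cons.1 hQ with rfl | h3
      · exact hP
      · exact h1 Q h3
  have hav : Avoids (youngSys a D) I := by
    rintro X Y f ⟨l, n, T, rfl, rfl, hl, rfl⟩ h2
    simp only [eqToHom_refl, Category.id_comp, Category.comp_id] at h2
    obtain ⟨l', h3, h4⟩ := hlist l hl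
    subst h4
    exact hcon ⟨l', h3, n, T, h2⟩
  obtain ⟨P, hP, hIP, hPa⟩ := exists_prime_avoids (isMult_youngSys a D) hI hav
  obtain ⟨n, T, h1⟩ := h P hP hIP
  have key : ∀ (μ : YoungDiagram) (V : Fin n ≃ μ.cells),
      grpAct a n (youngSymmetrizer V) ∈ P (tpow a n) (tpow a n) →
      μ = [Λ P].foldr addD ⊥ → ∃ (V' : Fin n ≃ ([Λ P].foldr addD ⊥).cells),
        grpAct a n (youngSymmetrizer V') ∈ P (tpow a n) (tpow a n) := by
    rintro μ V hV rfl
    exact ⟨V, hV⟩
  obtain ⟨V, hV⟩ := key _ T h1 (addD_bot _).symm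
  refine hPa _ _ _ (youngSys_self a (D := D) V ?_) hV
  intro μ hμ
  rw [List.mem_singleton] at hμ
  exact ⟨P, ⟨hP, hIP⟩, hμ.symm⟩

lemma Kills.mono {I J : Family C} (h : I ≤ J) {μ : YoungDiagram} {a : C} (ha : Kills I μ a) :
    Kills J μ a := by
  obtain ⟨n, T, h1⟩ := ha
  exact ⟨n, T, h _ _ h1⟩

/-- The empty diagram kills only if the unit vanishes. -/
lemma unit_mem_of_kills_bot {I : Family C} {a : C} (h : Kills I ⊥ a) :
    𝟙 (𝟙_ C) ∈ I (𝟙_ C) (𝟙_ C) := by
  obtain ⟨n, T, h1⟩ := h
  have hn : n = 0 := by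
    have h2 := Fintype.card_congr T
    rw [Fintype.card_fin, Fintype.card_coe] at h2
    exact h2
  subst hn
  have h3 : grpAct a 0 (youngSymmetrizer T) = (1 : ℚ) • 𝟙 (𝟙_ C) := by
    classical
    have e1 : youngSymmetrizer T = MonoidAlgebra.single 1 1 := by
      rw [youngSymmetrizer_eq]
      have e2 : setSum (rowStab T) = MonoidAlgebra.single 1 1 := by
        unfold setSum
        rw [Finset.sum_eq_single (1 : Equiv.Perm (Fin 0))]
        · intro b _ hb
          exact absurd (Subsingleton.elim _ _) hb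
        · intro h
          exact absurd (Finset.mem_filter.2 ⟨Finset.mem_univ _, fun i => i.elim0⟩) h
      have e3 : altSum (colStab T) = MonoidAlgebra.single 1 1 := by
        unfold altSum
        rw [Finset.sum_eq_single (1 : Equiv.Perm (Fin 0))]
        · simp
        · intro b _ hb
          exact absurd (Subsingleton.elim _ _) hb
        · intro h
          exact absurd (Finset.mem_filter.2 ⟨Finset.mem_univ _, fun i => i.elim0⟩) h
      rw [e2, e3, MonoidAlgebra.single_mul_single, one_mul, one_mul]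
    rw [e1, grpAct_single, permAct_one]
  rw [h3, one_smul] at h1
  exact h1

end cat

end Pool.Agent.TH829.Ten
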