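import Pool.Agent.TH829.Ten.Ideal

/-!
# Tensor products of permutations of the factors
-/

set_option autoImplicit false

open CategoryTheory MonoidalCategory

universe v u

namespace Pool.Agent.TH829.Ten

open Pool.Agent.TH137.DG (tpow insAct permTail permAct grpAct)

set_option linter.unusedSectionVars false

/-- The number `n + m`, computed by recursion on `n`. -/
@[reducible] def L (m : ℕ) : ℕ → ℕ
  | 0 => m
  | n + 1 => L m n + 1

lemma le_L (m n : ℕ) : n ≤ L m n := by
  induction n with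
  | zero => exact Nat.zero_le _
  | succ n ih => exact Nat.succ_le_succ ih

/-- The inclusion of `{0, …, n}` in `{0, …, n + m}`. -/
def inc (m n : ℕ) (j : Fin (n + 1)) : Fin (L m n + 1) :=
  ⟨j, lt_of_lt_of_le j.2 (Nat.succ_le_succ (le_L m n))⟩

lemma inc_inj (m n : ℕ) : Function.Injective (inc m n) := by
  intro i j h
  have := congrArg Fin.val h
  exact Fin.ext this

/-- The permutation of `{0, …, n}` with given value at `0` and given permutation of the rest. -/
def extend {n : ℕ} (j : Fin (n + 1)) (ρ : Equiv.Perm (Fin n)) : Equiv.Perm (Fin (n + 1)) :=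
  (finSuccEquiv' 0).trans ((Equiv.optionCongr ρ).trans (finSuccEquiv' j).symm)

lemma extend_zero {n : ℕ} (j : Fin (n + 1)) (ρ : Equiv.Perm (Fin n)) : extend j ρ 0 = j := by
  simp [extend]

lemma extend_succ {n : ℕ} (j : Fin (n + 1)) (ρ : Equiv.Perm (Fin n)) (i : Fin n) :
    extend j ρ i.succ = j.succAbove (ρ i) := by
  have h : (finSuccEquiv' (0 : Fin (n + 1))) i.succ = some i := by
    rw [← Fin.zero_succAbove]
    exact finSuccEquiv'_succAbove 0 i
  simp [extend, h]

lemma permTail_apply {n : ℕ} (σ : Equiv.Perm (Fin (n + 1))) (i : Fin n) :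
    (σ 0).succAbove (permTail σ i) = σ i.succ := by
  have h : finSuccAboveEquiv (σ 0) (permTail σ i) =
      (σ.subtypeEquiv (p := fun x => x ≠ 0) (q := fun y => y ≠ σ 0) (fun x => by simp))
        (finSuccAboveEquiv 0 i) := by
    simp [permTail]
  have := congrArg Subtype.val h
  simpa [finSuccAboveEquiv] using this

lemma permTail_extend {n : ℕ} (j : Fin (n + 1)) (ρ : Equiv.Perm (Fin n)) :
    permTail (extend j ρ) = ρ := by
  ext1 i
  have h := permTail_apply (extend j ρ) i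
  rw [extend_succ] at h
  have e := extend_zero j ρ
  rw [e] at h
  exact Fin.succAbove_right_injective h

lemma perm_ext' {n : ℕ} {σ τ : Equiv.Perm (Fin (n + 1))} (h0 : σ 0 = τ 0)
    (h1 : permTail σ = permTail τ) : σ = τ := by
  ext1 i
  refine Fin.cases h0 (fun i => ?_) i
  rw [← permTail_apply, ← permTail_apply, h0, h1]

/-- The permutation `σ × τ` of `{0, …, n + m - 1}`. -/
def sumPerm (m : ℕ) : ∀ n : ℕ, Equiv.Perm (Fin n) → Equiv.Perm (Fin m) →
    Equiv.Perm (Fin (L m n))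
  | 0, _, τ => τ
  | n + 1, σ, τ => extend (inc m n (σ 0)) (sumPerm m n (permTail σ) τ)

lemma sumPerm_inj (m n : ℕ) (σ σ' : Equiv.Perm (Fin n)) (τ τ' : Equiv.Perm (Fin m))
    (h : sumPerm m n σ τ = sumPerm m n σ' τ') : σ = σ' ∧ τ = τ' := by
  induction n with
  | zero => exact ⟨Subsingleton.elim _ _, h⟩
  | succ n ih =>
    have h' : extend (inc m n (σ 0)) (sumPerm m n (permTail σ) τ) =
        extend (inc m n (σ' 0)) (sumPerm m n (permTail σ') τ') := h
    have h1 := congrArg permTail h'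
    rw [permTail_extend, permTail_extend] at h1
    obtain ⟨h2, h3⟩ := ih _ _ h1
    have h4 := congrArg (fun ρ : Equiv.Perm (Fin (L m n + 1)) => ρ 0) h'
    simp only [extend_zero] at h4
    exact ⟨perm_ext' (inc_inj m n h4) h2, h3⟩

section cat

variable {C : Type u} [Category.{v} C] [MonoidalCategory C]

/-- The isomorphism `a^{⊗ n} ⊗ a^{⊗ m} ≅ a^{⊗ (n + m)}`. -/
def tiso (a : C) (m : ℕ) : ∀ n : ℕ, tpow a n ⊗ tpow a m ≅ tpow a (L m n)
  | 0 => λ_ (tpow a m)
  | n + 1 => α_ a (tpow a n) (tpow a m) ≪≫ whiskerLeftIso a (tiso a m n)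

lemma tiso_succ_hom (a : C) (m n : ℕ) : (tiso a m (n + 1)).hom =
    (α_ a (tpow a n) (tpow a m)).hom ≫ a ◁ (tiso a m n).hom := rfl

variable [SymmetricCategory C]

lemma insAct_zero (a : C) (n : ℕ) : insAct a n 0 = 𝟙 _ := by
  cases n with
  | zero => rfl
  | succ n => rfl

lemma insAct_succ (a : C) (n : ℕ) (j : Fin (n + 1)) : insAct a (n + 1) j.succ =
    (α_ a a (tpow a n)).inv ≫ (β_ a a).hom ▷ tpow a n ≫ (α_ a a (tpow a n)).hom ≫
        a ◁ insAct a n j := rfl

/-- The braiding of the first two factors. -/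
def s0 (a X : C) : a ⊗ (a ⊗ X) ⟶ a ⊗ (a ⊗ X) :=
  (α_ a a X).inv ≫ (β_ a a).hom ▷ X ≫ (α_ a a X).hom

lemma s0_whisker (a X Z : C) : (s0 a X ▷ Z) ≫ (α_ a (a ⊗ X) Z).hom ≫ a ◁ (α_ a X Z).hom =
    (α_ a (a ⊗ X) Z).hom ≫ a ◁ (α_ a X Z).hom ≫ s0 a (X ⊗ Z) := by
  unfold s0
  monoidal

lemma s0_natural (a : C) {X Y : C} (f : X ⟶ Y) : s0 a X ≫ a ◁ (a ◁ f) = a ◁ (a ◁ f) ≫ s0 a Y := by
  unfold s0
  simp only [Category.assoc]
  rw [← associator_naturality_right, ← whisker_exchange_assoc,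
    associator_inv_naturality_right_assoc]

lemma insAct_succ' (a : C) (n : ℕ) (j : Fin (n + 1)) : insAct a (n + 1) j.succ =
    s0 a (tpow a n) ≫ a ◁ insAct a n j := by
  rw [insAct_succ, s0]
  simp only [Category.assoc]

lemma insAct_tiso (a : C) (m n : ℕ) (j : Fin (n + 1)) :
    (insAct a n j ▷ tpow a m) ≫ (α_ a (tpow a n) (tpow a m)).hom ≫ a ◁ (tiso a m n).hom =
      (α_ a (tpow a n) (tpow a m)).hom ≫ a ◁ (tiso a m n).hom ≫
        insAct a (L m n) (inc m n j) := by
  induction n with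
  | zero =>
    have e : inc m 0 j = 0 := by
      rw [Subsingleton.elim (α := Fin 1) j 0]
      rfl
    have e2 : insAct a 0 j = 𝟙 _ := rfl
    rw [e, e2, insAct_zero, id_whiskerRight, Category.id_comp, Category.comp_id]
  | succ n ih =>
    refine Fin.cases ?_ (fun j => ?_) j
    · have e : inc m (n + 1) 0 = 0 := rfl
      rw [e, insAct_zero, insAct_zero, id_whiskerRight, Category.id_comp, Category.comp_id]
    · have e : inc m (n + 1) j.succ = (inc m n j).succ := rfl
      rw [e, insAct_succ', insAct_succ', comp_whiskerRight, tiso_succ_hom]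
      have h2 := congrArg (fun t => a ◁ t) (ih j)
      simp only [whiskerLeft_comp] at h2
      have h3 : (a ◁ insAct a n j) ▷ tpow a m ≫ (α_ a (a ⊗ tpow a n) (tpow a m)).hom =
          (α_ a (a ⊗ tpow a n) (tpow a m)).hom ≫ a ◁ (insAct a n j ▷ tpow a m) := by
        simp
      have h4 := s0_whisker a (tpow a n) (tpow a m)
      have h5 := s0_natural a (tiso a m n).hom
      simp only [whiskerLeft_comp, Category.assoc] at h2 ⊢
      rw [reassoc_of% h3, h2, reassoc_of% h4, reassoc_of% h5]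

lemma permAct_succ (a : C) (n : ℕ) (σ : Equiv.Perm (Fin (n + 1))) :
    permAct a (n + 1) σ = a ◁ permAct a n (permTail σ) ≫ insAct a n (σ 0) := rfl

lemma permAct_tiso (a : C) (m n : ℕ) (σ : Equiv.Perm (Fin n)) (τ : Equiv.Perm (Fin m)) :
    (permAct a n σ ⊗ₘ permAct a m τ) ≫ (tiso a m n).hom =
      (tiso a m n).hom ≫ permAct a (L m n) (sumPerm m n σ τ) := by
  induction n with
  | zero =>
    have e : permAct a 0 σ = 𝟙 _ := rfl
    have e2 : (tiso a m 0).hom = (λ_ (tpow a m)).hom := rfl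
    have e3 : sumPerm m 0 σ τ = τ := rfl
    rw [e, e2, e3, id_tensorHom]
    exact leftUnitor_naturality _
  | succ n ih =>
    have e3 : sumPerm m (n + 1) σ τ =
        extend (inc m n (σ 0)) (sumPerm m n (permTail σ) τ) := rfl
    rw [e3, permAct_succ, permAct_succ, extend_zero, permTail_extend, tiso_succ_hom]
    have h1 : ((a ◁ permAct a n (permTail σ) ≫ insAct a n (σ 0)) ⊗ₘ permAct a m τ) =
        ((a ◁ permAct a n (permTail σ)) ⊗ₘ permAct a m τ) ≫ (insAct a n (σ 0) ▷ tpow a m) := by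
      rw [← tensorHom_id, tensorHom_comp_tensorHom, Category.comp_id]
    have h2 := insAct_tiso a m n (σ 0)
    have h3 : ((a ◁ permAct a n (permTail σ)) ⊗ₘ permAct a m τ) ≫
        (α_ a (tpow a n) (tpow a m)).hom =
        (α_ a (tpow a n) (tpow a m)).hom ≫
          a ◁ (permAct a n (permTail σ) ⊗ₘ permAct a m τ) := by
      rw [← id_tensorHom, ← id_tensorHom, associator_naturality]
    have h4 := congrArg (fun t => a ◁ t) (ih (permTail σ))
    simp only [whiskerLeft_comp] at h4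
    rw [h1, Category.assoc, h2, reassoc_of% h3, reassoc_of% h4]
    simp only [Category.assoc]

variable [Preadditive C] [Linear ℚ C] [MonoidalPreadditive C]

lemma grpAct_eq (a : C) (n : ℕ) (c : MonoidAlgebra ℚ (Equiv.Perm (Fin n))) :
    grpAct a n c = ∑ σ, c.coeff σ • permAct a n σ := by
  rw [grpAct]
  exact Finsupp.sum_fintype _ _ (fun σ => zero_smul _ _)

/-- The product `c × d` in the group algebra of the permutations of `n + m` letters. -/
noncomputable def prodElt {m n : ℕ} (c : MonoidAlgebra ℚ (Equiv.Perm (Fin n)))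
    (d : MonoidAlgebra ℚ (Equiv.Perm (Fin m))) : MonoidAlgebra ℚ (Equiv.Perm (Fin (L m n))) :=
  MonoidAlgebra.ofCoeff (Finsupp.equivFunOnFinite.symm fun ρ =>
    ∑ σ, ∑ τ, if sumPerm m n σ τ = ρ then c.coeff σ * d.coeff τ else 0)

lemma prodElt_coeff {m n : ℕ} (c : MonoidAlgebra ℚ (Equiv.Perm (Fin n)))
    (d : MonoidAlgebra ℚ (Equiv.Perm (Fin m))) (ρ : Equiv.Perm (Fin (L m n))) :
    (prodElt c d).coeff ρ =
      ∑ σ, ∑ τ, if sumPerm m n σ τ = ρ then c.coeff σ * d.coeff τ else 0 := rfl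

lemma prodElt_coeff_sumPerm {m n : ℕ} (c : MonoidAlgebra ℚ (Equiv.Perm (Fin n)))
    (d : MonoidAlgebra ℚ (Equiv.Perm (Fin m))) (σ : Equiv.Perm (Fin n))
    (τ : Equiv.Perm (Fin m)) :
    (prodElt c d).coeff (sumPerm m n σ τ) = c.coeff σ * d.coeff τ := by
  rw [prodElt_coeff, Finset.sum_eq_single σ, Finset.sum_eq_single τ]
  · rw [if_pos rfl]
  · intro τ' _ h
    rw [if_neg]
    intro h'
    exact h (sumPerm_inj _ _ _ _ _ _ h').2
  · intro h
    exact absurd (Finset.mem_univ _) h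
  · intro σ' _ h
    apply Finset.sum_eq_zero
    intro τ' _
    rw [if_neg]
    intro h'
    exact h (sumPerm_inj _ _ _ _ _ _ h').1
  · intro h
    exact absurd (Finset.mem_univ _) h

lemma prodElt_ne_zero {m n : ℕ} {c : MonoidAlgebra ℚ (Equiv.Perm (Fin n))}
    {d : MonoidAlgebra ℚ (Equiv.Perm (Fin m))} (hc : c ≠ 0) (hd : d ≠ 0) : prodElt c d ≠ 0 := by
  intro h
  have h1 : ∃ σ, c.coeff σ ≠ 0 := by
    by_contra hcon
    push Not at hcon
    apply hc
    ext σ
    exact hcon σ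
  have h2 : ∃ τ, d.coeff τ ≠ 0 := by
    by_contra hcon
    push Not at hcon
    apply hd
    ext τ
    exact hcon τ
  obtain ⟨σ, hσ⟩ := h1
  obtain ⟨τ, hτ⟩ := h2
  have h3 := prodElt_coeff_sumPerm c d σ τ
  rw [h] at h3
  exact mul_ne_zero hσ hτ h3.symm

lemma grpAct_prodElt (a : C) {m n : ℕ} (c : MonoidAlgebra ℚ (Equiv.Perm (Fin n)))
    (d : MonoidAlgebra ℚ (Equiv.Perm (Fin m))) :
    grpAct a (L m n) (prodElt c d) =
      (tiso a m n).inv ≫ (grpAct a n c ⊗ₘ grpAct a m d) ≫ (tiso a m n).hom := by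
  have h1 : grpAct a (L m n) (prodElt c d) =
      ∑ σ, ∑ τ, (c.coeff σ * d.coeff τ) • permAct a (L m n) (sumPerm m n σ τ) := by
    rw [grpAct_eq]
    simp only [prodElt_coeff, Finset.sum_smul, ite_smul, zero_smul]
    rw [Finset.sum_comm]
    apply Finset.sum_congr rfl
    intro σ _
    rw [Finset.sum_comm]
    apply Finset.sum_congr rfl
    intro τ _
    rw [Finset.sum_ite_eq, if_pos (Finset.mem_univ _)]
  have h2 : (grpAct a n c ⊗ₘ grpAct a m d) =
      ∑ σ, ∑ τ, (c.coeff σ * d.coeff τ) • (permAct a n σ ⊗ₘ permAct a m τ) := by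
    rw [grpAct_eq, grpAct_eq, sum_tensor]
    apply Finset.sum_congr rfl
    intro σ _
    rw [tensor_sum]
    apply Finset.sum_congr rfl
    intro τ _
    rw [smul_tensor, tensor_smul, smul_smul]
  rw [h1, h2]
  simp only [Preadditive.sum_comp, Preadditive.comp_sum, Linear.smul_comp, Linear.comp_smul]
  apply Finset.sum_congr rfl
  intro σ _
  apply Finset.sum_congr rfl
  intro τ _
  rw [permAct_tiso, Iso.inv_hom_id_assoc]

end cat

end Pool.Agent.TH829.Ten
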