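import Pool.Agent.TH829.Ten.Coh
import Pool.Agent.TH829.Ten.Diag

/-!
# The product of two Young symmetrizers
-/

set_option autoImplicit false

open CategoryTheory MonoidalCategory

universe v u

namespace Pool.Agent.TH829.Ten

open Pool.Agent.TH137.DG (tpow insAct permTail permAct grpAct rowStab colStab youngSymmetrizer)

set_option linter.unusedSectionVars false

lemma L_eq (m n : ℕ) : L m n = n + m := by
  induction n with
  | zero => rw [L, Nat.zero_add]
  | succ n ih => rw [L, ih]; omega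

/-- The bijection between `Fin n ⊕ Fin m` and `Fin (n + m)`. -/
def E (m n : ℕ) : Fin n ⊕ Fin m ≃ Fin (L m n) := finSumFinEquiv.trans (finCongr (L_eq m n).symm)

lemma E_inl (m n : ℕ) (i : Fin n) : (E m n (Sum.inl i) : ℕ) = i := by
  simp [E]

lemma E_inr (m n : ℕ) (j : Fin m) : (E m n (Sum.inr j) : ℕ) = n + j := by
  simp [E]

lemma sumPerm_val (m n : ℕ) (σ : Equiv.Perm (Fin n)) (τ : Equiv.Perm (Fin m))
    (x : Fin (L m n)) : (∀ i : Fin n, (x : ℕ) = i → (sumPerm m n σ τ x : ℕ) = σ i) ∧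
      ∀ j : Fin m, (x : ℕ) = n + j → (sumPerm m n σ τ x : ℕ) = n + τ j := by
  induction n with
  | zero =>
    refine ⟨fun i => i.elim0, fun j h => ?_⟩
    have h1 : x = j := Fin.ext (by rw [h, Nat.zero_add])
    have h2 : sumPerm m 0 σ τ x = τ j := by rw [← h1]; rfl
    rw [h2, Nat.zero_add]
  | succ n ih =>
    have e : sumPerm m (n + 1) σ τ =
        extend (inc m n (σ 0)) (sumPerm m n (permTail σ) τ) := rfl
    rw [e]
    refine Fin.cases ?_ (fun x => ?_) x
    · rw [extend_zero]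
      refine ⟨fun i h => ?_, fun j h => ?_⟩
      · have h1 : i = 0 := Fin.ext h.symm
        rw [h1]
        rfl
      · exfalso
        have h1 : ((0 : Fin (L m n + 1)) : ℕ) = 0 := rfl
        omega
    · rw [extend_succ, succAbove_val]
      obtain ⟨h1, h2⟩ := ih (permTail σ) x
      have h3 : ((inc m n (σ 0) : Fin (L m n + 1)) : ℕ) = (σ 0 : ℕ) := rfl
      have h4 : ((x.succ : Fin (L m n + 1)) : ℕ) = x + 1 := rfl
      refine ⟨fun i h => ?_, fun j h => ?_⟩
      · obtain ⟨i', rfl⟩ : ∃ i' : Fin n, i'.succ = i :=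
          ⟨⟨i - 1, by have := i.2; omega⟩, by apply Fin.ext; simp; omega⟩
        have h5 : (x : ℕ) = i' := by
          have : ((i'.succ : Fin (n + 1)) : ℕ) = i' + 1 := rfl
          omega
        have h6 := h1 i' h5
        have h7 := congrArg Fin.val (permTail_apply σ i')
        rw [succAbove_val] at h7
        rw [← h7, h6, h3]
      · have h5 := h2 j (by omega)
        have h6 := (σ 0).2
        rw [h5, h3, if_neg (by omega)]
        omega

lemma sumPerm_E (m n : ℕ) (σ : Equiv.Perm (Fin n)) (τ : Equiv.Perm (Fin m))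
    (x : Fin n ⊕ Fin m) : sumPerm m n σ τ (E m n x) = E m n (Equiv.sumCongr σ τ x) := by
  rcases x with i | j
  · apply Fin.ext
    rw [(sumPerm_val m n σ τ _).1 i (E_inl m n i)]
    exact (E_inl m n _).symm
  · apply Fin.ext
    rw [(sumPerm_val m n σ τ _).2 j (E_inr m n j)]
    exact (E_inr m n _).symm

lemma sumPerm_eq (m n : ℕ) (σ : Equiv.Perm (Fin n)) (τ : Equiv.Perm (Fin m)) :
    sumPerm m n σ τ = (E m n).permCongr (Equiv.sumCongr σ τ) := by
  ext1 x
  obtain ⟨y, rfl⟩ := (E m n).surjective x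
  rw [sumPerm_E, Equiv.permCongr_apply, Equiv.symm_apply_apply]

lemma sumPerm_mul (m n : ℕ) (σ σ' : Equiv.Perm (Fin n)) (τ τ' : Equiv.Perm (Fin m)) :
    sumPerm m n (σ * σ') (τ * τ') = sumPerm m n σ τ * sumPerm m n σ' τ' := by
  ext1 x
  obtain ⟨y, rfl⟩ := (E m n).surjective x
  rw [Equiv.Perm.mul_apply, sumPerm_E, sumPerm_E, sumPerm_E]
  rcases y with y | y <;> rfl

lemma sumPerm_one (m n : ℕ) : sumPerm m n 1 1 = 1 := by
  ext1 x
  obtain ⟨y, rfl⟩ := (E m n).surjective x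
  rw [sumPerm_E]
  rcases y with y | y <;> rfl

lemma sign_sumPerm (m n : ℕ) (σ : Equiv.Perm (Fin n)) (τ : Equiv.Perm (Fin m)) :
    Equiv.Perm.sign (sumPerm m n σ τ) = Equiv.Perm.sign σ * Equiv.Perm.sign τ := by
  rw [sumPerm_eq, Equiv.Perm.sign_permCongr]
  exact Equiv.Perm.sign_sumCongr σ τ

/-- The first factor. -/
def ι1 (m n : ℕ) : Equiv.Perm (Fin n) →* Equiv.Perm (Fin (L m n)) where
  toFun σ := sumPerm m n σ 1
  map_one' := sumPerm_one m n
  map_mul' σ σ' := by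
    rw [← sumPerm_mul, one_mul]

/-- The second factor. -/
def ι2 (m n : ℕ) : Equiv.Perm (Fin m) →* Equiv.Perm (Fin (L m n)) where
  toFun τ := sumPerm m n 1 τ
  map_one' := sumPerm_one m n
  map_mul' σ σ' := by
    rw [← sumPerm_mul, one_mul]

lemma ι1_ι2 (m n : ℕ) (σ : Equiv.Perm (Fin n)) (τ : Equiv.Perm (Fin m)) :
    ι1 m n σ * ι2 m n τ = sumPerm m n σ τ := by
  show sumPerm m n σ 1 * sumPerm m n 1 τ = _
  rw [← sumPerm_mul, one_mul, mul_one]

lemma ι2_ι1 (m n : ℕ) (σ : Equiv.Perm (Fin n)) (τ : Equiv.Perm (Fin m)) :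
    ι2 m n τ * ι1 m n σ = sumPerm m n σ τ := by
  show sumPerm m n 1 τ * sumPerm m n σ 1 = _
  rw [← sumPerm_mul, one_mul, mul_one]

/-- The homomorphisms of the group algebras. -/
noncomputable def J1 (m n : ℕ) : MonoidAlgebra ℚ (Equiv.Perm (Fin n)) →+*
    MonoidAlgebra ℚ (Equiv.Perm (Fin (L m n))) := MonoidAlgebra.mapDomainRingHom ℚ (ι1 m n)

/-- The homomorphisms of the group algebras. -/
noncomputable def J2 (m n : ℕ) : MonoidAlgebra ℚ (Equiv.Perm (Fin m)) →+*
    MonoidAlgebra ℚ (Equiv.Perm (Fin (L m n))) := MonoidAlgebra.mapDomainRingHom ℚ (ι2 m n)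

lemma J1_single (m n : ℕ) (σ : Equiv.Perm (Fin n)) (q : ℚ) :
    J1 m n (MonoidAlgebra.single σ q) = MonoidAlgebra.single (ι1 m n σ) q := by
  simp [J1]

lemma J2_single (m n : ℕ) (σ : Equiv.Perm (Fin m)) (q : ℚ) :
    J2 m n (MonoidAlgebra.single σ q) = MonoidAlgebra.single (ι2 m n σ) q := by
  simp [J2]

lemma eq_sum_single {n : ℕ} (c : MonoidAlgebra ℚ (Equiv.Perm (Fin n))) :
    c = ∑ σ, MonoidAlgebra.single σ (c.coeff σ) := by
  apply MonoidAlgebra.coeff_injective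
  rw [MonoidAlgebra.coeff_sum]
  ext τ
  simp [MonoidAlgebra.coeff_single]

lemma J1_J2 (m n : ℕ) (c : MonoidAlgebra ℚ (Equiv.Perm (Fin n)))
    (d : MonoidAlgebra ℚ (Equiv.Perm (Fin m))) : J1 m n c * J2 m n d =
      ∑ σ, ∑ τ, MonoidAlgebra.single (sumPerm m n σ τ) (c.coeff σ * d.coeff τ) := by
  conv_lhs => rw [eq_sum_single c, eq_sum_single d, map_sum, map_sum, Finset.sum_mul_sum]
  apply Finset.sum_congr rfl
  intro σ _
  apply Finset.sum_congr rfl
  intro τ _
  rw [J1_single, J2_single, MonoidAlgebra.single_mul_single, ι1_ι2]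

lemma J2_J1 (m n : ℕ) (c : MonoidAlgebra ℚ (Equiv.Perm (Fin n)))
    (d : MonoidAlgebra ℚ (Equiv.Perm (Fin m))) : J2 m n d * J1 m n c = J1 m n c * J2 m n d := by
  rw [J1_J2]
  conv_lhs => rw [eq_sum_single c, eq_sum_single d, map_sum, map_sum, Finset.sum_mul_sum]
  rw [Finset.sum_comm]
  apply Finset.sum_congr rfl
  intro σ _
  apply Finset.sum_congr rfl
  intro τ _
  rw [J1_single, J2_single, MonoidAlgebra.single_mul_single, ι2_ι1, mul_comm]

open Classical in
/-- The sum of the elements of a set of permutations. -/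
noncomputable def setSum {n : ℕ} (A : Set (Equiv.Perm (Fin n))) :
    MonoidAlgebra ℚ (Equiv.Perm (Fin n)) :=
  ∑ p ∈ Finset.univ.filter (· ∈ A), MonoidAlgebra.single p 1

open Classical in
/-- The alternating sum of the elements of a set of permutations. -/
noncomputable def altSum {n : ℕ} (A : Set (Equiv.Perm (Fin n))) :
    MonoidAlgebra ℚ (Equiv.Perm (Fin n)) :=
  ∑ q ∈ Finset.univ.filter (· ∈ A), MonoidAlgebra.single q ((Equiv.Perm.sign q : ℤ) : ℚ)

lemma youngSymmetrizer_eq {n : ℕ} {μ : YoungDiagram} (T : Fin n ≃ μ.cells) :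
    youngSymmetrizer T = setSum (rowStab T) * altSum (colStab T) := rfl

lemma setSum_mul_single {n : ℕ} (A : Set (Equiv.Perm (Fin n))) (g : Equiv.Perm (Fin n))
    (h : ∀ r, r * g ∈ A ↔ r ∈ A) : setSum A * MonoidAlgebra.single g 1 = setSum A := by
  classical
  unfold setSum
  rw [Finset.sum_mul, Finset.sum_filter, Finset.sum_filter, ← Equiv.sum_comp (Equiv.mulRight g)
    (fun r => if r ∈ A then MonoidAlgebra.single r (1 : ℚ) else 0)]
  apply Finset.sum_congr rfl
  intro r _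
  simp only [Equiv.coe_mulRight, h]
  split_ifs
  · rw [MonoidAlgebra.single_mul_single, mul_one]
  · rfl

open Classical in
lemma setSum_mul_J1 (m n : ℕ) (A : Set (Equiv.Perm (Fin (L m n)))) (B : Set (Equiv.Perm (Fin n)))
    (h : ∀ g ∈ B, ∀ r, r * ι1 m n g ∈ A ↔ r ∈ A) (hB : B.Nonempty) :
    ∃ q : ℚ, q ≠ 0 ∧ setSum A * J1 m n (setSum B) = q • setSum A := by
  refine ⟨((Finset.univ.filter (· ∈ B)).card : ℚ), ?_, ?_⟩
  · obtain ⟨g, hg⟩ := hB
    exact Nat.cast_ne_zero.2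
      (Finset.card_pos.2 ⟨g, Finset.mem_filter.2 ⟨Finset.mem_univ _, hg⟩⟩).ne'
  · have e : setSum A * J1 m n (setSum B) = ∑ p ∈ Finset.univ.filter (· ∈ B),
        setSum A * J1 m n (MonoidAlgebra.single p 1) := by
      rw [← Finset.mul_sum, ← map_sum]
      rfl
    have e2 : ∀ p ∈ Finset.univ.filter (· ∈ B), setSum A * J1 m n (MonoidAlgebra.single p 1) =
        setSum A := by
      intro p hp
      rw [J1_single]
      exact setSum_mul_single A (ι1 m n p) (h p (Finset.mem_filter.1 hp).2)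
    rw [e, Finset.sum_congr rfl e2, Finset.sum_const, Nat.cast_smul_eq_nsmul]

open Classical in
lemma setSum_mul_J2 (m n : ℕ) (A : Set (Equiv.Perm (Fin (L m n)))) (B : Set (Equiv.Perm (Fin m)))
    (h : ∀ g ∈ B, ∀ r, r * ι2 m n g ∈ A ↔ r ∈ A) (hB : B.Nonempty) :
    ∃ q : ℚ, q ≠ 0 ∧ setSum A * J2 m n (setSum B) = q • setSum A := by
  refine ⟨((Finset.univ.filter (· ∈ B)).card : ℚ), ?_, ?_⟩
  · obtain ⟨g, hg⟩ := hB
    exact Nat.cast_ne_zero.2
      (Finset.card_pos.2 ⟨g, Finset.mem_filter.2 ⟨Finset.mem_univ _, hg⟩⟩).ne'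
  · have e : setSum A * J2 m n (setSum B) = ∑ p ∈ Finset.univ.filter (· ∈ B),
        setSum A * J2 m n (MonoidAlgebra.single p 1) := by
      rw [← Finset.mul_sum, ← map_sum]
      rfl
    have e2 : ∀ p ∈ Finset.univ.filter (· ∈ B), setSum A * J2 m n (MonoidAlgebra.single p 1) =
        setSum A := by
      intro p hp
      rw [J2_single]
      exact setSum_mul_single A (ι2 m n p) (h p (Finset.mem_filter.1 hp).2)
    rw [e, Finset.sum_congr rfl e2, Finset.sum_const, Nat.cast_smul_eq_nsmul]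

open Classical in
lemma altSum_eq (m n : ℕ) (A : Set (Equiv.Perm (Fin (L m n)))) (B : Set (Equiv.Perm (Fin n)))
    (D : Set (Equiv.Perm (Fin m))) (h1 : ∀ σ τ, sumPerm m n σ τ ∈ A ↔ σ ∈ B ∧ τ ∈ D)
    (h2 : ∀ r ∈ A, ∃ σ τ, sumPerm m n σ τ = r) :
    altSum A = J1 m n (altSum B) * J2 m n (altSum D) := by
  have e : J1 m n (altSum B) * J2 m n (altSum D) =
      ∑ σ ∈ Finset.univ.filter (· ∈ B), ∑ τ ∈ Finset.univ.filter (· ∈ D),
        MonoidAlgebra.single (sumPerm m n σ τ)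
          ((Equiv.Perm.sign (sumPerm m n σ τ) : ℤ) : ℚ) := by
    rw [altSum, altSum, map_sum, map_sum, Finset.sum_mul_sum]
    apply Finset.sum_congr rfl
    intro σ _
    apply Finset.sum_congr rfl
    intro τ _
    rw [J1_single, J2_single, MonoidAlgebra.single_mul_single, ι1_ι2, sign_sumPerm]
    push_cast
    rfl
  rw [e, ← Finset.sum_product', altSum]
  symm
  apply Finset.sum_bij (fun (x : Equiv.Perm (Fin n) × Equiv.Perm (Fin m)) _ =>
    sumPerm m n x.1 x.2)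
  · rintro ⟨σ, τ⟩ hx
    rw [Finset.mem_product, Finset.mem_filter, Finset.mem_filter] at hx
    exact Finset.mem_filter.2 ⟨Finset.mem_univ _, (h1 σ τ).2 ⟨hx.1.2, hx.2.2⟩⟩
  · rintro ⟨σ, τ⟩ _ ⟨σ', τ'⟩ _ he
    obtain ⟨h3, h4⟩ := sumPerm_inj m n σ σ' τ τ' he
    rw [h3, h4]
  · intro r hr
    obtain ⟨σ, τ, rfl⟩ := h2 r (Finset.mem_filter.1 hr).2
    obtain ⟨h3, h4⟩ := (h1 σ τ).1 (Finset.mem_filter.1 hr).2
    exact ⟨(σ, τ), Finset.mem_product.2 ⟨Finset.mem_filter.2 ⟨Finset.mem_univ _, h3⟩,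
      Finset.mem_filter.2 ⟨Finset.mem_univ _, h4⟩⟩, rfl⟩
  · rintro ⟨σ, τ⟩ _
    rfl

/-- The numbering of the sum of two numbered Young diagrams. -/
noncomputable def numb {m n : ℕ} {μ ν : YoungDiagram} (T : Fin n ≃ μ.cells) (U : Fin m ≃ ν.cells) :
    Fin (L m n) ≃ (addD μ ν).cells :=
  (E m n).symm.trans ((Equiv.sumCongr T U).trans (sumEquiv μ ν))

lemma numb_inl {m n : ℕ} {μ ν : YoungDiagram} (T : Fin n ≃ μ.cells) (U : Fin m ≃ ν.cells)
    (i : Fin n) : (numb T U (E m n (Sum.inl i))).1 = ((T i).1.1, fcol μ ν (T i).1.2) := by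
  rw [numb, Equiv.trans_apply, Equiv.trans_apply, Equiv.symm_apply_apply]
  rfl

lemma numb_inr {m n : ℕ} {μ ν : YoungDiagram} (T : Fin n ≃ μ.cells) (U : Fin m ≃ ν.cells)
    (j : Fin m) : (numb T U (E m n (Sum.inr j))).1 = ((U j).1.1, gcol μ ν (U j).1.2) := by
  rw [numb, Equiv.trans_apply, Equiv.trans_apply, Equiv.symm_apply_apply]
  rfl

lemma rowStab_numb {m n : ℕ} {μ ν : YoungDiagram} (T : Fin n ≃ μ.cells) (U : Fin m ≃ ν.cells)
    {σ : Equiv.Perm (Fin n)} {τ : Equiv.Perm (Fin m)} (hσ : σ ∈ rowStab T) (hτ : τ ∈ rowStab U)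
    (r : Equiv.Perm (Fin (L m n))) :
    r * sumPerm m n σ τ ∈ rowStab (numb T U) ↔ r ∈ rowStab (numb T U) := by
  have h : ∀ x, (numb T U (sumPerm m n σ τ x)).1.1 = (numb T U x).1.1 := by
    intro x
    obtain ⟨y, rfl⟩ := (E m n).surjective x
    rw [sumPerm_E]
    rcases y with i | j
    · have e : Equiv.sumCongr σ τ (Sum.inl i) = Sum.inl (σ i) := rfl
      rw [e, numb_inl, numb_inl]
      exact hσ i
    · have e : Equiv.sumCongr σ τ (Sum.inr j) = Sum.inr (τ j) := rfl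
      rw [e, numb_inr, numb_inr]
      exact hτ j
  constructor
  · intro hr x
    obtain ⟨y, rfl⟩ := (sumPerm m n σ τ).surjective x
    have h1 := hr y
    rw [Equiv.Perm.mul_apply] at h1
    rw [h1, h]
  · intro hr x
    rw [Equiv.Perm.mul_apply, hr, h]

lemma colStab_numb {m n : ℕ} {μ ν : YoungDiagram} (T : Fin n ≃ μ.cells) (U : Fin m ≃ ν.cells)
    (σ : Equiv.Perm (Fin n)) (τ : Equiv.Perm (Fin m)) :
    sumPerm m n σ τ ∈ colStab (numb T U) ↔ σ ∈ colStab T ∧ τ ∈ colStab U := by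
  constructor
  · intro h
    refine ⟨fun i => ?_, fun j => ?_⟩
    · have h1 := h (E m n (Sum.inl i))
      rw [sumPerm_E] at h1
      have e : Equiv.sumCongr σ τ (Sum.inl i) = Sum.inl (σ i) := rfl
      rw [e, numb_inl, numb_inl] at h1
      exact fcol_inj h1
    · have h1 := h (E m n (Sum.inr j))
      rw [sumPerm_E] at h1
      have e : Equiv.sumCongr σ τ (Sum.inr j) = Sum.inr (τ j) := rfl
      rw [e, numb_inr, numb_inr] at h1
      exact gcol_inj h1
  · rintro ⟨h1, h2⟩ x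
    obtain ⟨y, rfl⟩ := (E m n).surjective x
    rw [sumPerm_E]
    rcases y with i | j
    · have e : Equiv.sumCongr σ τ (Sum.inl i) = Sum.inl (σ i) := rfl
      rw [e, numb_inl, numb_inl]
      exact congrArg (fcol μ ν) (h1 i)
    · have e : Equiv.sumCongr σ τ (Sum.inr j) = Sum.inr (τ j) := rfl
      rw [e, numb_inr, numb_inr]
      exact congrArg (gcol μ ν) (h2 j)

lemma colStab_sum {m n : ℕ} {μ ν : YoungDiagram} (T : Fin n ≃ μ.cells) (U : Fin m ≃ ν.cells)
    {r : Equiv.Perm (Fin (L m n))} (hr : r ∈ colStab (numb T U)) :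
    ∃ σ τ, sumPerm m n σ τ = r := by
  let s : Equiv.Perm (Fin n ⊕ Fin m) := (E m n).symm.permCongr r
  have hs : ∀ x, E m n (s x) = r (E m n x) := by
    intro x
    show E m n ((E m n).symm (r ((E m n).symm.symm x))) = _
    rw [Equiv.apply_symm_apply, Equiv.symm_symm]
  have h : Set.MapsTo s (Set.range Sum.inl) (Set.range Sum.inl) := by
    rintro _ ⟨i, rfl⟩
    rcases hsi : s (Sum.inl i) with i' | j
    · exact ⟨i', rfl⟩
    · exfalso
      have h1 := hr (E m n (Sum.inl i))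
      rw [← hs, hsi, numb_inr, numb_inl] at h1
      exact fcol_ne_gcol ((YoungDiagram.mem_cells ((U j).1.1, (U j).1.2)).1 (U j).2) h1.symm
  obtain ⟨⟨σ, τ⟩, hστ⟩ := Equiv.Perm.mem_sumCongrHom_range_of_perm_mapsTo_inl h
  refine ⟨σ, τ, ?_⟩
  ext1 x
  obtain ⟨y, rfl⟩ := (E m n).surjective x
  rw [sumPerm_E, ← hs]
  congr 1
  rw [← hστ]
  rfl

/-- The Young symmetrizer of the sum of two numbered diagrams is a multiple of the product of the
Young symmetrizers. -/
theorem young_prod {m n : ℕ} {μ ν : YoungDiagram} (T : Fin n ≃ μ.cells) (U : Fin m ≃ ν.cells) :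
    ∃ q : ℚ, q ≠ 0 ∧ setSum (rowStab (numb T U)) *
      (J1 m n (youngSymmetrizer T) * J2 m n (youngSymmetrizer U)) =
        q • youngSymmetrizer (numb T U) := by
  obtain ⟨q1, hq1, h1⟩ := setSum_mul_J1 m n (rowStab (numb T U)) (rowStab T)
    (fun g hg r => rowStab_numb T U hg (fun _ => rfl) r) ⟨1, fun _ => rfl⟩
  obtain ⟨q2, hq2, h2⟩ := setSum_mul_J2 m n (rowStab (numb T U)) (rowStab U)
    (fun g hg r => rowStab_numb T U (σ := 1) (fun _ => rfl) hg r) ⟨1, fun _ => rfl⟩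
  refine ⟨q1 * q2, mul_ne_zero hq1 hq2, ?_⟩
  rw [youngSymmetrizer_eq, youngSymmetrizer_eq, youngSymmetrizer_eq,
    altSum_eq m n (colStab (numb T U)) (colStab T) (colStab U) (colStab_numb T U)
      (fun r hr => colStab_sum T U hr)]
  rw [map_mul, map_mul]
  have e : J1 m n (setSum (rowStab T)) * J1 m n (altSum (colStab T)) *
      (J2 m n (setSum (rowStab U)) * J2 m n (altSum (colStab U))) =
      J1 m n (setSum (rowStab T)) * (J2 m n (setSum (rowStab U)) *
        (J1 m n (altSum (colStab T)) * J2 m n (altSum (colStab U)))) := by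
    rw [mul_assoc, ← mul_assoc (J1 m n (altSum (colStab T))), ← J2_J1, mul_assoc]
  rw [e, ← mul_assoc, h1, smul_mul_assoc, ← mul_assoc, h2, smul_mul_assoc, smul_smul]

end Pool.Agent.TH829.Ten
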